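import Mathlib
import Pool.Agent.Y268.D3.Stm
import Pool.Agent.H143R2.Kad.Trunc
import Pool.Agent.H747R2.Kad.Fourth
import Pool.Agent.H880R2.Kad.GtSa
import Pool.Agent.H873R2.Kad.GT
import Pool.Agent.H778R2.Kad3.Vmap
import Pool.Agent.H777R2.Kad.Dix
import Pool.Agent.H294R2.Kad2.Dix2

/-!
Column and row inequalities for forms which are limits of forms good for averaging
(statements `S_col` and `S_row`).
-/

open scoped ComplexOrder InnerProductSpace ComplexConjugate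
open Finset

noncomputable section

namespace Y306.D3

open H759R2.Kad H711R2.KG Y268.D3

/-- The little Grothendieck inequality. -/
theorem gt0 : St_gt.{0, 0} := prove_gt (prove_gtsa prove_fourth prove_trunc)

theorem le_of_eps {L A Q : ℝ} (h : ∀ ε : ℝ, 0 < ε → ε ≤ 1 → L ≤ A + Q * ε) : L ≤ A := by
  by_contra hlt
  push Not at hlt
  have hQ : (0 : ℝ) < |Q| + 1 := by positivity
  have hd : 0 < (L - A) / (2 * (|Q| + 1)) := div_pos (by linarith) (by positivity)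
  set ε := min 1 ((L - A) / (2 * (|Q| + 1))) with hε
  have hε0 : 0 < ε := lt_min one_pos hd
  have h1 := h ε hε0 (min_le_left _ _)
  have h2 : ε ≤ (L - A) / (2 * (|Q| + 1)) := min_le_right _ _
  rw [le_div_iff₀ (by positivity)] at h2
  have h3 : Q * ε ≤ |Q| * ε := mul_le_mul_of_nonneg_right (le_abs_self Q) hε0.le
  nlinarith

section fam

variable {B : Type} [CStarAlgebra B] {ι : Type} [Fintype ι] [DecidableEq ι]

/-- The indices of the family. -/
abbrev Gm (ι : Type) (n : ℕ) : Type := (Equiv.Perm ι × (ι → ℤˣ)) × Fin n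

/-- The number of signed permutations. -/
def Mc (ι : Type) [Fintype ι] [DecidableEq ι] : ℕ :=
  Fintype.card (Equiv.Perm ι) * Fintype.card (ι → ℤˣ)

theorem Mc_pos : (0 : ℝ) < Mc ι := by
  have : 0 < Mc ι := Nat.mul_pos Fintype.card_pos Fintype.card_pos
  exact_mod_cast this

/-- The family. -/
def U {n : ℕ} (g : Fin n → B) (p : Gm ι n) : CStarMatrix ι ι B :=
  tens (spm p.1.1 p.1.2) (g p.2)

theorem tens_star_mul {s : Matrix ι ι ℂ} (hs : s ∈ unitary (Matrix ι ι ℂ)) (h : B) :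
    star (tens s h) * tens s h = dgl B ι (star h * h) := by
  ext i j
  rw [CStarMatrix.mul_apply, dgl_apply]
  have h1 : ∀ k, (star (tens s h)) i k * (tens s h) k j = (star s i k * s k j) • (star h * h) := by
    intro k
    rw [CStarMatrix.star_apply, tens_apply, tens_apply, star_smul, smul_mul_smul_comm]
    rfl
  rw [Finset.sum_congr rfl fun k _ => h1 k, ← Finset.sum_smul, ← Matrix.mul_apply,
    (Unitary.mem_iff.mp hs).1, Matrix.one_apply]
  split_ifs <;> simp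

theorem sum_U_star {n : ℕ} {g : Fin n → B} (hg : IsPart g) :
    ∑ p : Gm ι n, star (U g p) * U g p = (Mc ι : ℂ) • (1 : CStarMatrix ι ι B) := by
  unfold U
  rw [Fintype.sum_prod_type]
  have h1 : ∀ a : Equiv.Perm ι × (ι → ℤˣ),
      ∑ s : Fin n, star (tens (spm a.1 a.2) (g s)) * tens (spm a.1 a.2) (g s) =
        (1 : CStarMatrix ι ι B) := by
    intro a
    rw [Finset.sum_congr rfl fun s _ => tens_star_mul (spm_mem a.1 a.2) (g s), ← map_sum, hg.1]
    ext i j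
    rw [dgl_apply, CStarMatrix.one_apply]
  rw [Finset.sum_congr rfl fun a _ => h1 a, Finset.sum_const, Finset.card_univ,
    Fintype.card_prod, ← Nat.cast_smul_eq_nsmul ℂ]
  rfl

theorem sum_U_conj [Nonempty ι] {n : ℕ} (g : Fin n → B) (X : CStarMatrix ι ι B) :
    ∑ p : Gm ι n, U g p * X * star (U g p) =
      (Mc ι : ℂ) • dgl B ι (∑ s, g s * avd X * star (g s)) := by
  rw [Fintype.sum_prod_type, Finset.sum_comm]
  have h1 : ∀ s : Fin n, ∑ a : Equiv.Perm ι × (ι → ℤˣ),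
      U g (a, s) * X * star (U g (a, s)) = (Mc ι : ℂ) • dgl B ι (g s * avd X * star (g s)) := by
    intro s
    rw [Fintype.sum_prod_type]
    refine (sum_conj (g s) X).trans ?_
    unfold Mc
    push_cast
    rfl
  rw [Finset.sum_congr rfl fun s _ => h1 s, ← Finset.smul_sum, map_sum]

variable {K : Type} [NormedAddCommGroup K] [InnerProductSpace ℂ K]

/-- Norm of the image of an elementary tensor. -/
theorem amp_tens_norm (w : B →ₗ[ℂ] (K →L[ℂ] K))
    {s : Matrix ι ι ℂ} (hs : s ∈ unitary (Matrix ι ι ℂ)) (h : B) (v : HH ι K) :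
    ‖amp w ι (tens s h) v‖ ^ 2 = ∑ c, ‖w h (v c)‖ ^ 2 := by
  have h1 : ∀ i, amp w ι (tens s h) v i = ∑ j, s i j • w h (v j) := by
    intro i
    rw [amp_apply]
    refine Finset.sum_congr rfl fun j _ => ?_
    have : tens s h i j = s i j • h := rfl
    rw [this, map_smul]
    rfl
  rw [PiLp.norm_sq_eq_of_L2, ← H294R2.Kad2.sum_scal hs (fun j => w h (v j))]
  exact Finset.sum_congr rfl fun i _ => by rw [h1 i]

theorem qf_re (w : B →ₗ[ℂ] (K →L[ℂ] K)) {n : ℕ} (g : Fin n → B) (ξ : K) :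
    (qf w g ξ ξ).re = ∑ s, ‖w (g s) ξ‖ ^ 2 := by
  unfold qf
  rw [Complex.re_sum]
  refine Finset.sum_congr rfl fun s _ => ?_
  rw [inner_self_eq_norm_sq_to_K]
  norm_cast

theorem sum_U_norm (w : B →ₗ[ℂ] (K →L[ℂ] K)) {n : ℕ} (g : Fin n → B) (v : HH ι K) :
    ∑ p : Gm ι n, ‖amp w ι (U g p) v‖ ^ 2 = (Mc ι : ℝ) * ∑ c, (qf w g (v c) (v c)).re := by
  unfold U
  have h1 : ∀ p : Gm ι n, ‖amp w ι (tens (spm p.1.1 p.1.2) (g p.2)) v‖ ^ 2 =
      ∑ c, ‖w (g p.2) (v c)‖ ^ 2 := fun p => amp_tens_norm w (spm_mem p.1.1 p.1.2) _ v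
  have h2 : ∀ a : Equiv.Perm ι × (ι → ℤˣ), ∑ s : Fin n, ∑ c, ‖w (g s) (v c)‖ ^ 2 =
      ∑ c, (qf w g (v c) (v c)).re := by
    intro _
    rw [Finset.sum_comm]
    exact Finset.sum_congr rfl fun c _ => (qf_re w g (v c)).symm
  rw [Finset.sum_congr rfl fun p _ => h1 p, Fintype.sum_prod_type]
  refine (Finset.sum_congr rfl fun a _ => h2 a).trans ?_
  rw [Finset.sum_const, Finset.card_univ, Fintype.card_prod, nsmul_eq_mul]
  rfl

end fam

section main

variable {B : Type} [CStarAlgebra B] [PartialOrder B] [StarOrderedRing B] {τ : B →ₗ[ℂ] ℂ}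
  {ι : Type} [Fintype ι] [DecidableEq ι] [Nonempty ι]

theorem norm_conj_le {n : ℕ} (g : Fin n → B) (X : CStarMatrix ι ι B) {ε R : ℝ}
    (hX : ‖∑ s, g s * avd X * star (g s) - algebraMap ℂ B (τ (avd X))‖ ≤ ε)
    (hR : ‖ntr τ ι X‖ ≤ R) :
    ‖∑ p : Gm ι n, U g p * X * star (U g p)‖ ≤ (Mc ι : ℝ) * (R + ε) := by
  rw [sum_U_conj, norm_smul, Complex.norm_natCast]
  refine mul_le_mul_of_nonneg_left ?_ Mc_pos.le
  refine (norm_dgl_le ι _).trans ?_
  have h1 : ‖algebraMap ℂ B (τ (avd X))‖ ≤ R := by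
    rw [norm_algebraMap, tau_avd]
    calc ‖ntr τ ι X‖ * ‖(1 : B)‖ ≤ ‖ntr τ ι X‖ * 1 :=
          mul_le_mul_of_nonneg_left Col.norm_one_le (norm_nonneg _)
      _ ≤ R := by rw [mul_one]; exact hR
  calc ‖∑ s, g s * avd X * star (g s)‖ = ‖(∑ s, g s * avd X * star (g s) -
        algebraMap ℂ B (τ (avd X))) + algebraMap ℂ B (τ (avd X))‖ := by rw [sub_add_cancel]
    _ ≤ _ := norm_add_le _ _
    _ ≤ R + ε := by linarith

variable {K : Type} [NormedAddCommGroup K] [InnerProductSpace ℂ K] [CompleteSpace K]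

/-- The little Grothendieck inequality for the products of the family with `y`. -/
theorem gt_fam (hτ : IsTracialState τ) {n : ℕ} {g : Fin n → B} (hg : IsPart g)
    (T : CStarMatrix ι ι B →ₗ[ℂ] HH ι K) {M : ℝ} (hM : 0 ≤ M) (hT : ∀ b, ‖T b‖ ≤ M * ‖b‖)
    {κ : Type} [Fintype κ] (y : κ → CStarMatrix ι ι B) {ε : ℝ}
    (hε : ‖∑ s, g s * avd (∑ k, y k * star (y k)) * star (g s) -
      algebraMap ℂ B (τ (avd (∑ k, y k * star (y k))))‖ ≤ ε) :
    ∑ p : Gm ι n × κ, ‖T (U g p.1 * y p.2)‖ ^ 2 ≤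
      (Mc ι : ℝ) * (3 * M ^ 2 * (2 * ‖∑ k, star (y k) * y k‖ + ε)) := by
  have h1 := gt0 (CStarMatrix ι ι B) (HH ι K) T M hM hT (Gm ι n × κ)
    (fun p => U g p.1 * y p.2)
  have e1 : ∑ p : Gm ι n × κ, star (U g p.1 * y p.2) * (U g p.1 * y p.2) =
      (Mc ι : ℂ) • ∑ k, star (y k) * y k := by
    rw [Fintype.sum_prod_type, Finset.sum_comm, Finset.smul_sum]
    refine Finset.sum_congr rfl fun k _ => ?_
    have h2 : ∀ p : Gm ι n, star (U g p * y k) * (U g p * y k) =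
        star (y k) * (star (U g p) * U g p) * y k := by
      intro p
      rw [star_mul]
      simp only [mul_assoc]
    rw [Finset.sum_congr rfl fun p _ => h2 p, ← Finset.sum_mul, ← Finset.mul_sum, sum_U_star hg,
      mul_smul_comm, mul_one, smul_mul_assoc]
  have e2 : ∑ p : Gm ι n × κ, (U g p.1 * y p.2) * star (U g p.1 * y p.2) =
      ∑ p : Gm ι n, U g p * (∑ k, y k * star (y k)) * star (U g p) := by
    rw [Fintype.sum_prod_type]
    refine Finset.sum_congr rfl fun p _ => ?_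
    rw [Finset.mul_sum, Finset.sum_mul]
    refine Finset.sum_congr rfl fun k _ => ?_
    rw [star_mul]
    simp only [mul_assoc]
  have hntr : ‖ntr τ ι (∑ k, y k * star (y k))‖ ≤ ‖∑ k, star (y k) * y k‖ := by
    have hN := isTracialState_ntr hτ ι
    have e3 : ntr τ ι (∑ k, y k * star (y k)) = ntr τ ι (∑ k, star (y k) * y k) := by
      rw [map_sum, map_sum]
      exact Finset.sum_congr rfl fun k _ => hN.comm _ _
    rw [e3]
    exact Col.state_bound _ hN _ (Finset.sum_nonneg fun k _ => star_mul_self_nonneg _)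
  have h3 := norm_conj_le g (∑ k, y k * star (y k)) hε hntr
  rw [e1, e2, norm_smul, Complex.norm_natCast] at h1
  refine h1.trans ?_
  have h4 : (Mc ι : ℝ) * ‖∑ k, star (y k) * y k‖ +
      ‖∑ p : Gm ι n, U g p * (∑ k, y k * star (y k)) * star (U g p)‖ ≤
      (Mc ι : ℝ) * (2 * ‖∑ k, star (y k) * y k‖ + ε) := by
    linarith
  calc _ ≤ 3 * M ^ 2 * ((Mc ι : ℝ) * (2 * ‖∑ k, star (y k) * y k‖ + ε)) :=
        mul_le_mul_of_nonneg_left h4 (by positivity)
    _ = _ := by ring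

end main

theorem prove_col : S_col := by
  classical
  intro B _ _ _ τ hτ K _ _ _ w hw q C hq hdix ι _ _ _ γ hγ hb κ _ y θ
  set R : ℝ := ‖∑ k, star (y k) * y k‖ with hR
  obtain ⟨v, hv⟩ : ∃ v : κ → HH ι K, ∀ k, v k = amp w ι (y k) θ := ⟨_, fun _ => rfl⟩
  simp only [← hv]
  refine le_of_eps (Q := 3 * γ ^ 2 * ‖θ‖ ^ 2 + Fintype.card κ * Fintype.card ι)
    fun ε hε hε1 => ?_
  obtain ⟨n, g, hg, hF, hZ⟩ := hdix (univ.image (fun p : κ × ι => v p.1 p.2))
    {avd (∑ k, y k * star (y k))} ε hε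
  have hZ1 := hZ _ (Finset.mem_singleton_self _)
  have hT : ∀ b : CStarMatrix ι ι B, ‖((ContinuousLinearMap.apply ℂ (HH ι K) θ).toLinearMap.comp
      (amp w ι)) b‖ ≤ (γ * ‖θ‖) * ‖b‖ := by
    intro b
    simp only [LinearMap.comp_apply, ContinuousLinearMap.coe_coe,
      ContinuousLinearMap.apply_apply]
    calc ‖amp w ι b θ‖ ≤ ‖amp w ι b‖ * ‖θ‖ := (amp w ι b).le_opNorm θ
      _ ≤ γ * ‖b‖ * ‖θ‖ := by gcongr; exact hb b
      _ = γ * ‖θ‖ * ‖b‖ := by ring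
  have h1 := gt_fam hτ hg ((ContinuousLinearMap.apply ℂ (HH ι K) θ).toLinearMap.comp (amp w ι))
    (by positivity) hT y hZ1
  simp only [LinearMap.comp_apply, ContinuousLinearMap.coe_coe,
    ContinuousLinearMap.apply_apply] at h1
  have e : ∑ p : Gm ι n × κ, ‖amp w ι (U g p.1 * y p.2) θ‖ ^ 2 =
      (Mc ι : ℝ) * ∑ k, ∑ c, (qf w g (v k c) (v k c)).re := by
    rw [Fintype.sum_prod_type, Finset.sum_comm, Finset.mul_sum]
    refine Finset.sum_congr rfl fun k _ => ?_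
    rw [← sum_U_norm w g (v k)]
    refine Finset.sum_congr rfl fun p _ => ?_
    rw [(H294R2.Kad2.amp_isHom hw).mul, hv]
    rfl
  rw [e] at h1
  have h2 : ∑ k, ∑ c, (qf w g (v k c) (v k c)).re ≤ 3 * (γ * ‖θ‖) ^ 2 * (2 * R + ε) :=
    le_of_mul_le_mul_left h1 Mc_pos
  have h3 : ∑ k, (qa q (v k) (v k)).re ≤ ∑ k, ∑ c, ((qf w g (v k c) (v k c)).re + ε) := by
    refine Finset.sum_le_sum fun k _ => ?_
    unfold qa
    rw [Complex.re_sum]
    refine Finset.sum_le_sum fun c _ => ?_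
    have hm : v k c ∈ univ.image (fun p : κ × ι => v p.1 p.2) :=
      Finset.mem_image_of_mem (fun p : κ × ι => v p.1 p.2) (Finset.mem_univ (k, c))
    have h4 := (Complex.abs_re_le_norm _).trans (hF _ hm _ hm)
    rw [Complex.sub_re] at h4
    have := (abs_le.1 h4).1
    linarith
  have h5 : ∑ k, ∑ c, ((qf w g (v k c) (v k c)).re + ε) =
      ∑ k, ∑ c, (qf w g (v k c) (v k c)).re + Fintype.card κ * Fintype.card ι * ε := by
    simp only [Finset.sum_add_distrib, Finset.sum_const, Finset.card_univ, nsmul_eq_mul]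
    ring
  rw [h5] at h3
  calc _ ≤ _ := h3
    _ ≤ 3 * (γ * ‖θ‖) ^ 2 * (2 * R + ε) + Fintype.card κ * Fintype.card ι * ε := by linarith
    _ = _ := by ring

theorem prove_row : S_row := by
  classical
  intro B _ _ _ τ hτ K _ _ _ w hw q C hq hdix ι _ _ _ γ hγ hb κ _ y ξ
  set R : ℝ := ‖∑ k, y k * star (y k)‖ with hR
  set S : ℝ := ∑ k, (qa q (ξ k) (ξ k)).re with hS
  set kc : ℝ := (Fintype.card κ : ℝ) * Fintype.card ι with hkc
  have hkc0 : 0 ≤ kc := by positivity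
  have hR0 : 0 ≤ R := norm_nonneg _
  have hS0 : 0 ≤ S := by
    refine Finset.sum_nonneg fun k _ => ?_
    unfold qa
    rw [Complex.re_sum]
    exact Finset.sum_nonneg fun c _ => hq.pos _
  set η : HH ι K := ∑ k, amp w ι (y k) (ξ k) with hη
  have hv := fun X => (prove3_vmap.{0, 0} B K w).1 ι X
  refine le_of_eps (Q := 3 * γ ^ 2 * (S + 2 * R * kc + kc)) fun ε hε hε1 => ?_
  obtain ⟨n, g, hg, hF, hZ⟩ := hdix (univ.image (fun p : κ × ι => ξ p.1 p.2))
    {avd (∑ k, star (y k) * star (star (y k)))} ε hε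
  have hZ1 := hZ _ (Finset.mem_singleton_self _)
  have hT : ∀ b : CStarMatrix ι ι B, ‖((ContinuousLinearMap.apply ℂ (HH ι K) η).toLinearMap.comp
      (amp (vmap w) ι)) b‖ ≤ (γ * ‖η‖) * ‖b‖ := by
    intro b
    simp only [LinearMap.comp_apply, ContinuousLinearMap.coe_coe,
      ContinuousLinearMap.apply_apply]
    calc ‖amp (vmap w) ι b η‖ ≤ ‖amp (vmap w) ι b‖ * ‖η‖ := (amp (vmap w) ι b).le_opNorm η
      _ ≤ γ * ‖b‖ * ‖η‖ := by
          gcongr
          have e1 : ‖amp (vmap w) ι b‖ = ‖amp w ι (star b)‖ := by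
            rw [hv, ContinuousLinearMap.star_eq_adjoint]
            exact LinearIsometryEquiv.norm_map _ _
          rw [e1]
          exact (hb _).trans (by rw [norm_star])
      _ = γ * ‖η‖ * ‖b‖ := by ring
  have h1 := gt_fam hτ hg
    ((ContinuousLinearMap.apply ℂ (HH ι K) η).toLinearMap.comp (amp (vmap w) ι))
    (by positivity) hT (fun k => star (y k)) hZ1
  simp only [LinearMap.comp_apply, ContinuousLinearMap.coe_coe,
    ContinuousLinearMap.apply_apply, star_star] at h1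
  -- the pairing
  have hpair : ∀ k : κ, (Mc ι : ℂ) * ⟪η, amp w ι (y k) (ξ k)⟫_ℂ =
      ∑ p : Gm ι n, ⟪amp (vmap w) ι (U g p * star (y k)) η, amp w ι (U g p) (ξ k)⟫_ℂ := by
    intro k
    have h2 : ∀ p : Gm ι n, ⟪amp (vmap w) ι (U g p * star (y k)) η,
        amp w ι (U g p) (ξ k)⟫_ℂ = ⟪η, amp w ι (y k * (star (U g p) * U g p)) (ξ k)⟫_ℂ := by
      intro p
      rw [hv, star_mul, star_star, ContinuousLinearMap.star_eq_adjoint,
        ContinuousLinearMap.adjoint_inner_left, ← mul_apply_eq_comp,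
        ← (H294R2.Kad2.amp_isHom hw).mul, mul_assoc]
    rw [Finset.sum_congr rfl fun p _ => h2 p, ← inner_sum, ← _root_.sum_apply, ← map_sum,
      ← Finset.mul_sum, sum_U_star hg, mul_smul_comm, mul_one, map_smul,
      smul_apply, inner_smul_right]
  have hsum : (Mc ι : ℝ) * ‖η‖ ^ 2 ≤ ∑ p : Gm ι n × κ,
      ‖amp (vmap w) ι (U g p.1 * star (y p.2)) η‖ * ‖amp w ι (U g p.1) (ξ p.2)‖ := by
    have e1 : (Mc ι : ℝ) * ‖η‖ ^ 2 = ‖(Mc ι : ℂ) * ⟪η, η⟫_ℂ‖ := by
      rw [inner_self_eq_norm_sq_to_K]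
      simp
    have e2 : (Mc ι : ℂ) * ⟪η, η⟫_ℂ = ∑ p : Gm ι n × κ,
        ⟪amp (vmap w) ι (U g p.1 * star (y p.2)) η, amp w ι (U g p.1) (ξ p.2)⟫_ℂ := by
      rw [Fintype.sum_prod_type, Finset.sum_comm,
        ← Finset.sum_congr rfl fun k _ => hpair k, ← Finset.mul_sum, ← inner_sum]
    rw [e1, e2]
    exact (norm_sum_le _ _).trans (Finset.sum_le_sum fun k _ => norm_inner_le_norm _ _)
  have e : ∑ p : Gm ι n × κ, ‖amp w ι (U g p.1) (ξ p.2)‖ ^ 2 =
      (Mc ι : ℝ) * ∑ k, ∑ c, (qf w g (ξ k c) (ξ k c)).re := by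
    rw [Fintype.sum_prod_type, Finset.sum_comm, Finset.mul_sum]
    exact Finset.sum_congr rfl fun k _ => sum_U_norm w g (ξ k)
  have h3 : ∑ k, ∑ c, (qf w g (ξ k c) (ξ k c)).re ≤ S + kc * ε := by
    have h5 : ∑ k, ∑ c, (qf w g (ξ k c) (ξ k c)).re ≤
        ∑ k, ∑ c, ((q (ξ k c) (ξ k c)).re + ε) := by
      refine Finset.sum_le_sum fun k _ => Finset.sum_le_sum fun c _ => ?_
      have hm : ξ k c ∈ univ.image (fun p : κ × ι => ξ p.1 p.2) :=
        Finset.mem_image_of_mem (fun p : κ × ι => ξ p.1 p.2) (Finset.mem_univ (k, c))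
      have h4 := (Complex.abs_re_le_norm _).trans (hF _ hm _ hm)
      rw [Complex.sub_re] at h4
      have := (abs_le.1 h4).2
      linarith
    refine h5.trans (le_of_eq ?_)
    simp only [Finset.sum_add_distrib, Finset.sum_const, Finset.card_univ, nsmul_eq_mul]
    rw [hS, hkc]
    unfold qa
    simp only [Complex.re_sum]
    ring
  have hcs : ((Mc ι : ℝ) * ‖η‖ ^ 2) ^ 2 ≤
      ((Mc ι : ℝ) * (3 * (γ * ‖η‖) ^ 2 * (2 * R + ε))) * ((Mc ι : ℝ) * (S + kc * ε)) := by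
    calc ((Mc ι : ℝ) * ‖η‖ ^ 2) ^ 2 ≤ (∑ p : Gm ι n × κ,
          ‖amp (vmap w) ι (U g p.1 * star (y p.2)) η‖ * ‖amp w ι (U g p.1) (ξ p.2)‖) ^ 2 :=
          pow_le_pow_left₀ (by positivity) hsum 2
      _ ≤ (∑ p : Gm ι n × κ, ‖amp (vmap w) ι (U g p.1 * star (y p.2)) η‖ ^ 2) *
          ∑ p : Gm ι n × κ, ‖amp w ι (U g p.1) (ξ p.2)‖ ^ 2 :=
          Finset.sum_mul_sq_le_sq_mul_sq _ _ _
      _ ≤ _ := by
          rw [e]
          exact mul_le_mul h1 (mul_le_mul_of_nonneg_left h3 Mc_pos.le)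
            (by rw [← e]; positivity) (by positivity)
  have hfin : ‖η‖ ^ 2 ≤ 3 * γ ^ 2 * (2 * R + ε) * (S + kc * ε) := by
    rcases eq_or_ne (‖η‖) 0 with h0 | h0
    · rw [h0]
      have : 0 ≤ 3 * γ ^ 2 * (2 * R + ε) * (S + kc * ε) := by positivity
      simpa using this
    · have hη2 : 0 < ‖η‖ ^ 2 := by positivity
      have hM := Mc_pos (ι := ι)
      have h5 : ((Mc ι : ℝ) ^ 2 * ‖η‖ ^ 2) * ‖η‖ ^ 2 ≤
          ((Mc ι : ℝ) ^ 2 * ‖η‖ ^ 2) * (3 * γ ^ 2 * (2 * R + ε) * (S + kc * ε)) := by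
        calc ((Mc ι : ℝ) ^ 2 * ‖η‖ ^ 2) * ‖η‖ ^ 2 = ((Mc ι : ℝ) * ‖η‖ ^ 2) ^ 2 := by ring
          _ ≤ _ := hcs
          _ = _ := by ring
      exact le_of_mul_le_mul_left h5 (by positivity)
  refine hfin.trans ?_
  have h6 : (2 * R + ε) * (S + kc * ε) ≤ 2 * R * S + (S + 2 * R * kc + kc) * ε := by
    have h7 : kc * ε * ε ≤ kc * ε * 1 := mul_le_mul_of_nonneg_left hε1 (by positivity)
    nlinarith
  calc 3 * γ ^ 2 * (2 * R + ε) * (S + kc * ε) = 3 * γ ^ 2 * ((2 * R + ε) * (S + kc * ε)) := by ring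
    _ ≤ 3 * γ ^ 2 * (2 * R * S + (S + 2 * R * kc + kc) * ε) :=
        mul_le_mul_of_nonneg_left h6 (by positivity)
    _ = _ := by ring

end Y306.D3
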